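import Pool.Agent.Q157.OM.Stm

/-!
# Project OM: cliques and sequences of edges, patterns of occurring permutations
-/

set_option autoImplicit false

namespace Pool.Agent.Q166.OM

open Finset Pool.Agent.Q157.OM

theorem sq (h1 : S_el) : S_sq := by
  intro r Ps hr
  obtain ⟨hmem, -, -, -, -, hmin⟩ := h1
  constructor
  · intro k W N hM hC hk
    obtain ⟨hcard, hdisj, -⟩ := hM
    have hinj : Set.InjOn (fun e : Finset ℕ => el e 0) (N : Set (Finset ℕ)) := by
      intro e he f hf hef
      by_contra hne
      have hd := hdisj e he f hf hne
      have h1 : el e 0 ∈ e := hmem e 0 (by rw [hcard e he]; omega)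
      have h2 : el f 0 ∈ f := hmem f 0 (by rw [hcard f hf]; omega)
      have h3 : el e 0 = el f 0 := hef
      rw [← h3] at h2
      exact (Finset.disjoint_left.mp hd h1) h2
    have hS : (N.image (fun e : Finset ℕ => el e 0)).card = k := by
      rw [Finset.card_image_of_injOn hinj, hk]
    let o := (N.image (fun e : Finset ℕ => el e 0)).orderIsoOfFin hS
    have hex : ∀ a : Fin k, ∃ e ∈ N, el e 0 = (o a : ℕ) := by
      intro a
      have := (o a).2
      rw [Finset.mem_image] at this
      exact this
    choose x hxN hx using hex
    have hlt : ∀ a b : Fin k, a < b → el (x a) 0 < el (x b) 0 := by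
      intro a b hab
      rw [hx a, hx b]
      exact_mod_cast o.strictMono hab
    have hxinj : Function.Injective x := by
      intro a b hab
      rcases lt_trichotomy a b with h | h | h
      · have := hlt a b h
        rw [hab] at this
        exact absurd this (lt_irrefl _)
      · exact h
      · have := hlt b a h
        rw [hab] at this
        exact absurd this (lt_irrefl _)
    refine ⟨x, ⟨fun a => hcard _ (hxN a), ?_⟩, ?_⟩
    · intro a b hab
      have hne : x a ≠ x b := fun h => (ne_of_lt hab) (hxinj h)
      refine ⟨hdisj _ (hxN a) _ (hxN b) hne, hlt a b hab, ?_⟩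
      have hp := hC _ (hxN a) _ (hxN b) hne
      have hle : (x a).min ≤ (x b).min :=
        (hmin (x a) (x b) (by rw [hcard _ (hxN a)]; omega)
          (by rw [hcard _ (hxN b)]; omega)).mpr (le_of_lt (hlt a b hab))
      rw [pattern, if_pos hle] at hp
      exact hp
    · apply Finset.eq_of_subset_of_card_le
      · intro e he
        rw [Finset.mem_image] at he
        obtain ⟨a, -, rfl⟩ := he
        exact hxN a
      · rw [Finset.card_image_of_injective _ hxinj, hk]
        simp
  · intro k x hx
    obtain ⟨hcard, hpair⟩ := hx
    have hinj : Function.Injective x := by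
      intro a b hab
      rcases lt_trichotomy a b with h | h | h
      · have := (hpair a b h).2.1
        rw [hab] at this
        exact absurd this (lt_irrefl _)
      · exact h
      · have := (hpair b a h).2.1
        rw [hab] at this
        exact absurd this (lt_irrefl _)
    refine ⟨⟨?_, ?_, ?_⟩, ?_, ?_, hinj⟩
    · intro e he
      rw [Finset.mem_image] at he
      obtain ⟨a, -, rfl⟩ := he
      exact hcard a
    · intro e he f hf hne
      rw [Finset.mem_image] at he hf
      obtain ⟨a, -, rfl⟩ := he
      obtain ⟨b, -, rfl⟩ := hf
      have hab : a ≠ b := fun h => hne (by rw [h])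
      rcases lt_or_gt_of_ne hab with h | h
      · exact (hpair a b h).1
      · exact (hpair b a h).1.symm
    · ext v
      simp
    · intro e he f hf hne
      rw [Finset.mem_image] at he hf
      obtain ⟨a, -, rfl⟩ := he
      obtain ⟨b, -, rfl⟩ := hf
      have hab : a ≠ b := fun h => hne (by rw [h])
      have ha : 0 < (x a).card := by rw [hcard a]; omega
      have hb : 0 < (x b).card := by rw [hcard b]; omega
      rcases lt_or_gt_of_ne hab with h | h
      · have hle : (x a).min ≤ (x b).min := (hmin _ _ ha hb).mpr (le_of_lt (hpair a b h).2.1)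
        rw [pattern, if_pos hle]
        exact (hpair a b h).2.2
      · have hle : ¬ (x a).min ≤ (x b).min := by
          rw [hmin _ _ ha hb, not_le]
          exact (hpair b a h).2.1
        rw [pattern, if_neg hle]
        exact (hpair b a h).2.2
    · rw [Finset.card_image_of_injective _ hinj]
      simp

theorem closed : S_closed := by
  intro r Ps i n m π τ hO hC
  obtain ⟨x, ⟨hcard, hpair⟩, hx⟩ := hO
  obtain ⟨f, hf⟩ := hC
  refine ⟨fun a => x (f a), ⟨fun a => hcard _, ?_⟩, ?_⟩
  · intro a b hab
    exact hpair _ _ (f.strictMono hab)
  · intro a b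
    rw [hx, hf]

end Pool.Agent.Q166.OM
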